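import Pool.Agent.Helper18.PS.St3

/-!
# Module SU3 of project PS
-/

set_option autoImplicit false

noncomputable section

namespace Pool.Agent.Helper45.PS

open Finset
open Pool.Agent.Helper18.PS

private lemma tel (f : ℕ → ℝ) (a n : ℕ) (h : a ≤ n) :
    ∑ k ∈ Ico a n, (f k - f (k + 1)) = f a - f n := by
  induction n, h using Nat.le_induction with
  | base => simp
  | succ n hn ih =>
    rw [Finset.sum_Ico_succ_top hn, ih]
    ring

private lemma pt (u v W : ℝ) (hu : 1 ≤ u) (hv : 1 ≤ v) (hW : 0 < W) (h : W ≤ u + v) :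
    1 / (u ^ 2 * v ^ 2) ≤ 4 / W ^ 2 * (1 / v ^ 2 + 1 / u ^ 2) := by
  have hu0 : 0 < u := by linarith
  have hv0 : 0 < v := by linarith
  have e : 4 / W ^ 2 * (1 / v ^ 2 + 1 / u ^ 2) = 4 * (u ^ 2 + v ^ 2) / (W ^ 2 * (u ^ 2 * v ^ 2)) := by
    field_simp
  rw [e, div_le_div_iff₀ (by positivity) (by positivity)]
  have h1 : W ^ 2 ≤ 4 * (u ^ 2 + v ^ 2) := by nlinarith [sq_nonneg (u - v)]
  have h2 : 0 < u ^ 2 * v ^ 2 := by positivity
  nlinarith

theorem hSU3 : StSU3 := by
  refine ⟨20, by norm_num, fun M hM => ⟨⌈Real.exp ((1 + Real.log M) ^ 2)⌉₊, fun N hN => ?_⟩⟩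
  have hNexp : Real.exp ((1 + Real.log M) ^ 2) ≤ N :=
    (Nat.le_ceil _).trans (by exact_mod_cast hN)
  have hN0 : (0 : ℝ) < N := lt_of_lt_of_le (Real.exp_pos _) hNexp
  have hM0 : (0 : ℝ) < M := by exact_mod_cast hM
  have hlogM : 0 ≤ Real.log M := Real.log_nonneg (by exact_mod_cast hM)
  have hL : (1 + Real.log M) ^ 2 ≤ Real.log N := by
    rw [Real.le_log_iff_exp_le hN0]
    exact hNexp
  have hL1 : 1 ≤ Real.log N := by nlinarith
  have hLp : 1 + Real.log M ≤ Real.log N ^ (2 / 3 : ℝ) := by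
    calc 1 + Real.log M = √((1 + Real.log M) ^ 2) := (Real.sqrt_sq (by linarith)).symm
      _ ≤ √(Real.log N) := Real.sqrt_le_sqrt hL
      _ = Real.log N ^ (1 / 2 : ℝ) := Real.sqrt_eq_rpow _
      _ ≤ Real.log N ^ (2 / 3 : ℝ) := Real.rpow_le_rpow_of_exponent_le hL1 (by norm_num)
  have hl1 : Real.log 2 ≤ 1 := by
    have := Real.log_two_lt_d9
    linarith
  have hl2 : 1 / 2 ≤ Real.log 2 := by
    have := Real.log_two_gt_d9
    linarith
  set S := (range (N + 1)).filter (fun k : ℕ =>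
    Real.exp (Real.log N ^ (2 / 3 : ℝ)) ≤ 2 ^ (k + 1) ∧ M * 2 ^ k ≤ N) with hS
  have hS1 : ∀ k ∈ S, 1 + Real.log M ≤ (k : ℝ) + 1 := by
    intro k hk
    rw [hS, mem_filter] at hk
    have h1 : Real.log N ^ (2 / 3 : ℝ) ≤ ((k + 1 : ℕ) : ℝ) * Real.log 2 := by
      rw [← Real.log_pow, Real.le_log_iff_exp_le (by positivity)]
      exact hk.2.1
    push_cast at h1
    have h2 : ((k : ℝ) + 1) * Real.log 2 ≤ ((k : ℝ) + 1) * 1 :=
      mul_le_mul_of_nonneg_left hl1 (by positivity)
    linarith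
  have hS2 : ∀ k ∈ S, Real.log M ≤ Real.log N - k * Real.log 2 := by
    intro k hk
    rw [hS, mem_filter] at hk
    have h1 : (M : ℝ) * 2 ^ k ≤ N := by exact_mod_cast hk.2.2
    have h2 : Real.log ((M : ℝ) * 2 ^ k) ≤ Real.log N := Real.log_le_log (by positivity) h1
    rw [Real.log_mul hM0.ne' (by positivity), Real.log_pow] at h2
    linarith
  have hW : 0 < 1 + Real.log N := by linarith
  have hA : 0 < 1 + Real.log M := by linarith
  -- the first sum
  have s1 : ∑ k ∈ S, 1 / (1 + (k : ℝ)) ^ 2 ≤ 2 / (1 + Real.log M) := by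
    obtain ⟨c, hc⟩ : ∃ c : ℕ, ⌈1 + Real.log M⌉₊ = c + 1 :=
      Nat.exists_eq_succ_of_ne_zero (Nat.ceil_pos.2 hA).ne'
    have hc1 : 1 + Real.log M ≤ (c : ℝ) + 1 := by
      have := Nat.le_ceil (1 + Real.log M)
      rw [hc] at this
      push_cast at this
      exact this
    rcases S.eq_empty_or_nonempty with he | ⟨k1, hk1⟩
    · rw [he, sum_empty]
      positivity
    have hsub : S ⊆ Ico c (N + 1) := by
      intro k hk
      rw [mem_Ico]
      constructor
      · have h1 : ⌈1 + Real.log M⌉₊ ≤ k + 1 := Nat.ceil_le.2 (by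
          push_cast
          exact hS1 k hk)
        omega
      · rw [hS, mem_filter, mem_range] at hk
        exact hk.1
    have hcN : c ≤ N + 1 := by
      have := mem_Ico.1 (hsub hk1)
      omega
    calc ∑ k ∈ S, 1 / (1 + (k : ℝ)) ^ 2
        ≤ ∑ k ∈ Ico c (N + 1), 1 / (1 + (k : ℝ)) ^ 2 :=
          sum_le_sum_of_subset_of_nonneg hsub fun _ _ _ => by positivity
      _ ≤ ∑ k ∈ Ico c (N + 1), (2 / (1 + (k : ℝ)) - 2 / (1 + ((k + 1 : ℕ) : ℝ))) := by
          refine sum_le_sum fun k _ => ?_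
          have h1 : (0 : ℝ) ≤ k := Nat.cast_nonneg k
          push_cast
          have e : 2 / (1 + (k : ℝ)) - 2 / (1 + ((k : ℝ) + 1)) =
              2 / ((1 + (k : ℝ)) * (1 + ((k : ℝ) + 1))) := by
            field_simp
            ring
          rw [e, div_le_div_iff₀ (by positivity) (by positivity)]
          nlinarith
      _ = 2 / (1 + (c : ℝ)) - 2 / (1 + ((N + 1 : ℕ) : ℝ)) :=
          tel (fun k => 2 / (1 + (k : ℝ))) c (N + 1) hcN
      _ ≤ 2 / (1 + (c : ℝ)) := by
          have : (0 : ℝ) ≤ 2 / (1 + ((N + 1 : ℕ) : ℝ)) := by positivity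
          linarith
      _ ≤ 2 / (1 + Real.log M) := by
          apply div_le_div_of_nonneg_left (by norm_num) hA
          linarith
  -- the second sum
  have s2 : ∑ k ∈ S, 1 / (1 + (Real.log N - k * Real.log 2)) ^ 2 ≤ 3 / (1 + Real.log M) := by
    rcases S.eq_empty_or_nonempty with he | hne
    · rw [he, sum_empty]
      positivity
    have hK := S.max'_mem hne
    obtain ⟨K, hKd⟩ : ∃ K, K = S.max' hne := ⟨_, rfl⟩
    rw [← hKd] at hK
    have hsub : S ⊆ range (K + 1) := by
      intro k hk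
      rw [mem_range, hKd]
      exact Nat.lt_succ_of_le (S.le_max' k hk)
    have hxK := hS2 K hK
    have hx : ∀ k ∈ range (K + 1), 0 ≤ Real.log N - k * Real.log 2 := by
      intro k hk
      rw [mem_range] at hk
      have h1 : (k : ℝ) ≤ K := by exact_mod_cast Nat.lt_succ_iff.1 hk
      have h2 : (k : ℝ) * Real.log 2 ≤ K * Real.log 2 :=
        mul_le_mul_of_nonneg_right h1 (by linarith)
      linarith
    calc ∑ k ∈ S, 1 / (1 + (Real.log N - k * Real.log 2)) ^ 2
        ≤ ∑ k ∈ range (K + 1), 1 / (1 + (Real.log N - k * Real.log 2)) ^ 2 :=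
          sum_le_sum_of_subset_of_nonneg hsub fun _ _ _ => by positivity
      _ ≤ ∑ k ∈ range (K + 1), (3 / (1 + (Real.log N - ((k + 1 : ℕ) : ℝ) * Real.log 2 + Real.log 2)) -
            3 / (1 + (Real.log N - (k : ℝ) * Real.log 2 + Real.log 2))) := by
          refine sum_le_sum fun k hk => ?_
          have h1 := hx k hk
          obtain ⟨u, hu⟩ : ∃ u : ℝ, u = 1 + (Real.log N - k * Real.log 2) := ⟨_, rfl⟩
          have hu1 : 1 ≤ u := by linarith
          have e1 : 1 + (Real.log N - ((k + 1 : ℕ) : ℝ) * Real.log 2 + Real.log 2) = u := by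
            rw [hu]
            push_cast
            ring
          have e2 : 1 + (Real.log N - (k : ℝ) * Real.log 2 + Real.log 2) = u + Real.log 2 := by
            rw [hu]
            ring
          rw [e1, e2, ← hu]
          have hu0 : 0 < u := by linarith
          have hul : 0 < u + Real.log 2 := by linarith
          have e3 : 3 / u - 3 / (u + Real.log 2) = 3 * Real.log 2 / (u * (u + Real.log 2)) := by
            field_simp
            ring
          rw [e3, div_le_div_iff₀ (by positivity) (by positivity)]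
          have h2 : u + Real.log 2 ≤ 3 * Real.log 2 * u := by nlinarith
          nlinarith
      _ = 3 / (1 + (Real.log N - ((K + 1 : ℕ) : ℝ) * Real.log 2 + Real.log 2)) -
            3 / (1 + (Real.log N - ((0 : ℕ) : ℝ) * Real.log 2 + Real.log 2)) :=
          Finset.sum_range_sub
            (fun k : ℕ => 3 / (1 + (Real.log N - (k : ℝ) * Real.log 2 + Real.log 2))) (K + 1)
      _ ≤ 3 / (1 + (Real.log N - ((K + 1 : ℕ) : ℝ) * Real.log 2 + Real.log 2)) := by
          have h1 : (0 : ℝ) ≤ 3 / (1 + (Real.log N - ((0 : ℕ) : ℝ) * Real.log 2 + Real.log 2)) := by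
            apply div_nonneg (by norm_num)
            push_cast
            linarith
          linarith
      _ ≤ 3 / (1 + Real.log M) := by
          apply div_le_div_of_nonneg_left (by norm_num) hA
          push_cast
          linarith
  -- together
  calc ∑ k ∈ S, 1 / ((1 + Real.log N - k * Real.log 2) ^ 2 * (1 + (k : ℝ)) ^ 2)
      ≤ ∑ k ∈ S, 4 / (1 + Real.log N) ^ 2 *
          (1 / (1 + (k : ℝ)) ^ 2 + 1 / (1 + (Real.log N - k * Real.log 2)) ^ 2) := by
        refine sum_le_sum fun k hk => ?_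
        have h1 := hS2 k hk
        have h2 : (0 : ℝ) ≤ k := Nat.cast_nonneg k
        have h3 : (k : ℝ) * Real.log 2 ≤ k * 1 := mul_le_mul_of_nonneg_left hl1 h2
        rw [show 1 + Real.log N - k * Real.log 2 = 1 + (Real.log N - k * Real.log 2) by ring]
        exact pt _ _ _ (by linarith) (by linarith) hW (by linarith)
    _ = 4 / (1 + Real.log N) ^ 2 * (∑ k ∈ S, 1 / (1 + (k : ℝ)) ^ 2 +
          ∑ k ∈ S, 1 / (1 + (Real.log N - k * Real.log 2)) ^ 2) := by
        rw [← mul_sum, sum_add_distrib]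
    _ ≤ 4 / (1 + Real.log N) ^ 2 * (2 / (1 + Real.log M) + 3 / (1 + Real.log M)) := by
        refine mul_le_mul_of_nonneg_left (add_le_add s1 s2) (by positivity)
    _ = 20 / ((1 + Real.log M) * (1 + Real.log N) ^ 2) := by
        field_simp
        ring

end Pool.Agent.Helper45.PS
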