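import Pool.Agent.Helper45.PS.QBcore
import Pool.Agent.Helper98.PS.QA
import Pool.Agent.Helper24.PS.NF
import Pool.Agent.Helper80.PS.NU
import Pool.Agent.Helper67.PS.DI
import Pool.Agent.Helper21.PS.AS

/-!
# MP_8013d7_co, module QB (quadruples)
-/

set_option autoImplicit false

namespace PS

open SimpleGraph Finset Pool.Agent.Helper37.PathSys
open Pool.Agent.Helper37.PathSys.PathSystem
open Filter Topology

open scoped Classical

noncomputable section

variable {n : ℕ} {G : SimpleGraph (Fin n)} {P : PathSystem G}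

/-! ## Module QB (quadruples; uses QA, NF, DI) -/

theorem quad_lower (K : ℝ) (hK : 0 < K) : ∃ c : ℝ, 0 < c ∧ ∃ Λ0 : ℝ,
    ∀ (n h s : ℕ) (lam δ ξ : ℝ), Par n h lam δ → Λ0 ≤ lam → 0 < ξ → 4 * ξ / h ≤ 1 / lam →
    ∀ (G : SimpleGraph (Fin n)), GoodG δ h G →
    ∀ (P : PathSystem G), P.Consistent → Typ K δ lam ξ h s P →
      c * (n : ℝ) ^ 4 / lam ^ 2 ≤ ((Quad P).card : ℝ) := by
  obtain ⟨c, hc, Λ1, hE⟩ := hub_edges K hK
  refine ⟨c / 100, by positivity, max Λ1 (max (1000 * (K + 1)) (400000 * K / c)), ?_⟩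
  intro n h s lam δ ξ hp hL hξ hξ' G hG P hP hT
  have hL1 : Λ1 ≤ lam := le_trans (le_max_left _ _) hL
  have hL2 : 1000 * (K + 1) ≤ lam :=
    le_trans (le_trans (le_max_left _ _) (le_max_right _ _)) hL
  have hL3 : 400000 * K / c ≤ lam :=
    le_trans (le_trans (le_max_right _ _) (le_max_right _ _)) hL
  have hcard := hE n h s lam δ ξ hp hL1 hξ hξ' G hG P hP hT
  obtain ⟨hn1, hn2, hn3, hn4, hn5, hn6, hn7, hn8, hn9⟩ := num_n hp
  have hlam : (10 : ℝ) ^ 6 ≤ lam := hp.big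
  have hlam0 : 0 < lam := by linarith
  have hδ : δ ≤ 1 / 1000 := by
    have h1 := hp.dsmall
    have h2 := hp.dpos
    have h3 : (1000 : ℝ) ≤ lam ^ 4 := by
      have h4 : (1 : ℝ) ≤ lam := by linarith
      have h5 : lam ≤ lam ^ 4 := le_self_pow₀ h4 (by norm_num)
      linarith
    have h4 : δ * 1000 ≤ δ * lam ^ 4 := mul_le_mul_of_nonneg_left h3 h2
    linarith
  have hNF : ((NonFree P).card : ℝ) ≤ 5 * K * NN n / lam ^ 2 := by
    have h1 : ((NonFree P).card : ℝ) ≤ 3 * ((KKs (arcP s P)).card : ℝ) +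
        2 * ((LLs s P).card : ℝ) := by exact_mod_cast nonfree_le hP s
    have h2 : ((KKs (arcP s P)).card : ℝ) ≤ (nb (arcP s P) : ℝ) := by
      exact_mod_cast KKs_card_le (arcP s P)
    have h3 := hT.nb
    have h4 := hT.ll
    calc ((NonFree P).card : ℝ) ≤ 3 * (K * NN n / lam ^ 2) + 2 * (K * NN n / lam ^ 2) := by
          linarith
      _ = _ := by ring
  exact QB.core hK hc hG (dirG_le hP) hlam hδ hn1 hn4 hn8 hT.edges hNF (Hs_card hp hT.edges)
    hcard hL2 (by rw [div_le_iff₀ hc] at hL3; linarith)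

end

end PS
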