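import Pool.Agent.Helper21.PS.Basic

/-!
# MP_8013d7_co, module QB (quadruples): counting
-/

set_option autoImplicit false

namespace PS

open SimpleGraph Finset Pool.Agent.Helper37.PathSys
open Pool.Agent.Helper37.PathSys.PathSystem
open Filter Topology

open scoped Classical

noncomputable section

variable {n : ℕ} {G : SimpleGraph (Fin n)} {P : PathSystem G}

namespace QB

/-- ordered pairs that are neither direct nor free -/
def NFo (P : PathSystem G) : Finset (Fin n × Fin n) :=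
  univ.filter fun q => q.1 ≠ q.2 ∧ ¬ (dirG P).Adj q.1 q.2 ∧ ¬ Free P q.1 q.2

/-- ordered edges -/
def Oe (F : SimpleGraph (Fin n)) : Finset (Fin n × Fin n) :=
  univ.filter fun q => F.Adj q.1 q.2

lemma Free_symm {a b : Fin n} : Free P a b ↔ Free P b a := by
  unfold Free
  exact And.comm

lemma card_ordered (p : Fin n → Fin n → Prop) (hs : ∀ a b, p a b → p b a) :
    (univ.filter fun q : Fin n × Fin n => q.1 ≠ q.2 ∧ p q.1 q.2).card ≤
      2 * (univ.filter fun q : Pr n => p q.1.1 q.1.2).card := by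
  have h : (univ.filter fun q : Fin n × Fin n => q.1 ≠ q.2 ∧ p q.1 q.2) ⊆
      ((univ.filter fun q : Pr n => p q.1.1 q.1.2).image fun q => q.1) ∪
      ((univ.filter fun q : Pr n => p q.1.1 q.1.2).image fun q => (q.1.2, q.1.1)) := by
    rintro ⟨a, b⟩ hq
    rw [mem_filter] at hq
    obtain ⟨-, hne, hp⟩ := hq
    rw [mem_union]
    rcases lt_or_gt_of_ne hne with hlt | hlt
    · left
      rw [mem_image]
      exact ⟨⟨(a, b), hlt⟩, by simp only [mem_filter, mem_univ, true_and]; exact hp, rfl⟩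
    · right
      rw [mem_image]
      exact ⟨⟨(b, a), hlt⟩, by simp only [mem_filter, mem_univ, true_and]; exact hs _ _ hp, rfl⟩
  calc _ ≤ _ := card_le_card h
    _ ≤ _ := card_union_le _ _
    _ ≤ _ := by
      rw [two_mul]
      exact Nat.add_le_add card_image_le card_image_le

lemma card_NFo : (NFo P).card ≤ 2 * (NonFree P).card := by
  have := card_ordered (n := n) (fun a b => ¬ (dirG P).Adj a b ∧ ¬ Free P a b)
    (fun a b h => ⟨fun h' => h.1 h'.symm, fun h' => h.2 (Free_symm.1 h')⟩)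
  unfold NFo NonFree
  convert this

lemma card_Oe (F : SimpleGraph (Fin n)) : (Oe F).card ≤ 2 * nE F := by
  have := card_ordered (n := n) (fun a b => F.Adj a b) (fun a b h => h.symm)
  refine le_trans (card_le_card ?_) this
  intro q hq
  rw [Oe, mem_filter] at hq
  rw [mem_filter]
  exact ⟨mem_univ _, hq.2.ne, hq.2⟩

/-- the edges between large hubs -/
def E1 (F : SimpleGraph (Fin n)) : Finset (Fin n × Fin n) :=
  univ.filter fun q => F.Adj q.1 q.2 ∧ 45 * n ≤ 100 * dg F q.1 ∧ 45 * n ≤ 100 * dg F q.2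

/-- all candidates -/
def Cand (F : SimpleGraph (Fin n)) : Finset (Fin n × Fin n × Fin n × Fin n) :=
  univ.filter fun q => (q.2.2.1, q.2.2.2) ∈ E1 F ∧ F.Adj q.1 q.2.2.1 ∧ ¬ F.Adj q.1 q.2.2.2 ∧
    q.1 ≠ q.2.2.2 ∧ F.Adj q.2.1 q.2.2.2 ∧ ¬ F.Adj q.2.1 q.2.2.1 ∧ q.2.1 ≠ q.2.2.1

/-- the vertices adjacent to `x` and not to `y`. -/
def UU (F : SimpleGraph (Fin n)) (x y : Fin n) : Finset (Fin n) := (NF F x \ NF F y).erase y

lemma mem_NF {F : SimpleGraph (Fin n)} {x u : Fin n} : u ∈ NF F x ↔ F.Adj x u := by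
  simp [NF]

lemma mem_UU {F : SimpleGraph (Fin n)} {x y u : Fin n} :
    u ∈ UU F x y ↔ u ≠ y ∧ F.Adj u x ∧ ¬ F.Adj u y := by
  unfold UU
  simp only [mem_erase, Finset.mem_sdiff, mem_NF, F.adj_comm x u, F.adj_comm y u]

lemma card_Cand (F : SimpleGraph (Fin n)) :
    ∑ e ∈ E1 F, (UU F e.1 e.2).card * (UU F e.2 e.1).card ≤ (Cand F).card := by
  have h : ((E1 F).sigma fun e => UU F e.1 e.2 ×ˢ UU F e.2 e.1).card =
      ∑ e ∈ E1 F, (UU F e.1 e.2).card * (UU F e.2 e.1).card := by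
    rw [card_sigma]
    refine sum_congr rfl fun e _ => ?_
    rw [card_product]
  rw [← h]
  apply card_le_card_of_injOn (fun s => (s.2.1, s.2.2, s.1.1, s.1.2))
  · intro s hs
    rw [mem_coe, mem_sigma, mem_product, mem_UU, mem_UU] at hs
    rw [mem_coe, Cand, mem_filter]
    exact ⟨mem_univ _, hs.1, hs.2.1.2.1, hs.2.1.2.2, hs.2.1.1, hs.2.2.2.1, hs.2.2.2.2, hs.2.2.1⟩
  · rintro ⟨⟨a, b⟩, c, d⟩ _ ⟨⟨a', b'⟩, c', d'⟩ _ h
    simp only [Prod.mk.injEq] at h
    obtain ⟨rfl, rfl, rfl, rfl⟩ := h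
    rfl

lemma mem_Hs_of_large {F : SimpleGraph (Fin n)} {x : Fin n} (h : 45 * n ≤ 100 * dg F x) :
    x ∈ Hs F := by
  rw [Hs, mem_filter]
  exact ⟨mem_univ _, by omega⟩

lemma Cand_sub (P : PathSystem G) :
    (Cand (dirG P)).card ≤ (Quad P).card + (E1 (dirG P)).card * (Oe (dirG P)).card +
      (E1 (dirG P)).card * (NFo P).card + 2 * ((Hs (dirG P)).card * n * (NFo P).card) := by
  set F := dirG P with hF
  -- the removed sets
  set R1 : Finset (Fin n × Fin n × Fin n × Fin n) :=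
    univ.filter fun q => (q.2.2.1, q.2.2.2) ∈ E1 F ∧ (q.1, q.2.1) ∈ Oe F with hR1
  set R2 : Finset (Fin n × Fin n × Fin n × Fin n) :=
    univ.filter fun q => (q.2.2.1, q.2.2.2) ∈ E1 F ∧ (q.1, q.2.1) ∈ NFo P with hR2
  set R3 : Finset (Fin n × Fin n × Fin n × Fin n) :=
    univ.filter fun q => q.2.2.1 ∈ Hs F ∧ (q.1, q.2.2.2) ∈ NFo P with hR3
  set R4 : Finset (Fin n × Fin n × Fin n × Fin n) :=
    univ.filter fun q => q.2.2.2 ∈ Hs F ∧ (q.2.1, q.2.2.1) ∈ NFo P with hR4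
  have c1 : R1.card ≤ (E1 F).card * (Oe F).card := by
    rw [← card_product]
    apply card_le_card_of_injOn (fun q => ((q.2.2.1, q.2.2.2), (q.1, q.2.1)))
    · intro q hq
      rw [mem_coe, hR1, mem_filter] at hq
      rw [mem_coe, mem_product]
      exact hq.2
    · rintro ⟨a, b, c, d⟩ _ ⟨a', b', c', d'⟩ _ h
      simp only [Prod.mk.injEq] at h
      obtain ⟨⟨rfl, rfl⟩, rfl, rfl⟩ := h
      rfl
  have c2 : R2.card ≤ (E1 F).card * (NFo P).card := by
    rw [← card_product]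
    apply card_le_card_of_injOn (fun q => ((q.2.2.1, q.2.2.2), (q.1, q.2.1)))
    · intro q hq
      rw [mem_coe, hR2, mem_filter] at hq
      rw [mem_coe, mem_product]
      exact hq.2
    · rintro ⟨a, b, c, d⟩ _ ⟨a', b', c', d'⟩ _ h
      simp only [Prod.mk.injEq] at h
      obtain ⟨⟨rfl, rfl⟩, rfl, rfl⟩ := h
      rfl
  have c3 : R3.card ≤ (Hs F).card * n * (NFo P).card := by
    have : (Hs F).card * n * (NFo P).card =
        ((Hs F ×ˢ (univ : Finset (Fin n))) ×ˢ NFo P).card := by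
      rw [card_product, card_product, card_univ, Fintype.card_fin]
    rw [this]
    apply card_le_card_of_injOn (fun q => ((q.2.2.1, q.2.1), (q.1, q.2.2.2)))
    · intro q hq
      rw [mem_coe, hR3, mem_filter] at hq
      rw [mem_coe, mem_product, mem_product]
      exact ⟨⟨hq.2.1, mem_univ _⟩, hq.2.2⟩
    · rintro ⟨a, b, c, d⟩ _ ⟨a', b', c', d'⟩ _ h
      simp only [Prod.mk.injEq] at h
      obtain ⟨⟨rfl, rfl⟩, rfl, rfl⟩ := h
      rfl
  have c4 : R4.card ≤ (Hs F).card * n * (NFo P).card := by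
    have : (Hs F).card * n * (NFo P).card =
        ((Hs F ×ˢ (univ : Finset (Fin n))) ×ˢ NFo P).card := by
      rw [card_product, card_product, card_univ, Fintype.card_fin]
    rw [this]
    apply card_le_card_of_injOn (fun q => ((q.2.2.2, q.1), (q.2.1, q.2.2.1)))
    · intro q hq
      rw [mem_coe, hR4, mem_filter] at hq
      rw [mem_coe, mem_product, mem_product]
      exact ⟨⟨hq.2.1, mem_univ _⟩, hq.2.2⟩
    · rintro ⟨a, b, c, d⟩ _ ⟨a', b', c', d'⟩ _ h
      simp only [Prod.mk.injEq] at h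
      obtain ⟨⟨rfl, rfl⟩, rfl, rfl⟩ := h
      rfl
  have hsub : Cand F ⊆ Quad P ∪ R1 ∪ R2 ∪ R3 ∪ R4 := by
    rintro ⟨u, v, x, y⟩ hq
    rw [Cand, mem_filter] at hq
    obtain ⟨-, hE, hux, huy, huy', hvy, hvx, hvx'⟩ := hq
    simp only at hE hux huy huy' hvy hvx hvx'
    have hE' := hE
    rw [E1, mem_filter] at hE'
    obtain ⟨-, hxy, hx, hy⟩ := hE'
    have hxH : x ∈ Hs F := mem_Hs_of_large hx
    have hyH : y ∈ Hs F := mem_Hs_of_large hy
    have huv : u ≠ v := by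
      rintro rfl
      exact hvx hux
    by_cases a1 : F.Adj u v
    · have : (u, v, x, y) ∈ R1 := by
        rw [hR1, mem_filter]
        exact ⟨mem_univ _, hE, by rw [Oe, mem_filter]; exact ⟨mem_univ _, a1⟩⟩
      simp [this]
    by_cases a2 : Free P u v
    swap
    · have : (u, v, x, y) ∈ R2 := by
        rw [hR2, mem_filter]
        exact ⟨mem_univ _, hE, by rw [NFo, mem_filter]; exact ⟨mem_univ _, huv, a1, a2⟩⟩
      simp [this]
    by_cases a3 : Free P u y
    swap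
    · have : (u, v, x, y) ∈ R3 := by
        rw [hR3, mem_filter]
        exact ⟨mem_univ _, hxH, by rw [NFo, mem_filter]; exact ⟨mem_univ _, huy', huy, a3⟩⟩
      simp [this]
    by_cases a4 : Free P v x
    swap
    · have : (u, v, x, y) ∈ R4 := by
        rw [hR4, mem_filter]
        exact ⟨mem_univ _, hyH, by rw [NFo, mem_filter]; exact ⟨mem_univ _, hvx', hvx, a4⟩⟩
      simp [this]
    have : (u, v, x, y) ∈ Quad P := by
      rw [Quad, mem_filter]
      exact ⟨mem_univ _, hxy, hux, hvy, huy, hvx, a1, huy', hvx', huv, hxH, hyH, a3, a4, a2⟩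
    simp [this]
  calc (Cand F).card ≤ (Quad P ∪ R1 ∪ R2 ∪ R3 ∪ R4).card := card_le_card hsub
    _ ≤ (Quad P).card + R1.card + R2.card + R3.card + R4.card := by
        refine le_trans (card_union_le _ _) (Nat.add_le_add_right ?_ _)
        refine le_trans (card_union_le _ _) (Nat.add_le_add_right ?_ _)
        refine le_trans (card_union_le _ _) (Nat.add_le_add_right ?_ _)
        exact card_union_le _ _
    _ ≤ _ := by omega

/-- many vertices adjacent to one end of an edge and not to the other -/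
lemma card_UU {δ : ℝ} {h : ℕ} (hG : GoodG δ h G) {F : SimpleGraph (Fin n)} (hF : F ≤ G)
    {x y : Fin n} (hxy : x ≠ y) (hx : 45 * n ≤ 100 * dg F x) :
    (0.2 - δ) * n - 1 ≤ ((UU F x y).card : ℝ) := by
  have h1 : ((NF F x ∩ NF F y).card : ℝ) ≤ (1 / 4 + δ) * n := by
    refine le_trans ?_ (hG.inter x y hxy)
    have : (NF F x ∩ NF F y) ⊆ (NF G x ∩ NF G y) := by
      intro u hu
      rw [mem_inter, mem_NF, mem_NF] at hu ⊢
      exact ⟨hF hu.1, hF hu.2⟩
    exact_mod_cast card_le_card this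
  have h2 : (NF F x \ NF F y).card + (NF F x ∩ NF F y).card = dg F x :=
    card_sdiff_add_card_inter _ _
  have h3 : (NF F x \ NF F y).card ≤ (UU F x y).card + 1 := by
    unfold UU
    have := pred_card_le_card_erase (s := NF F x \ NF F y) (a := y)
    omega
  have h4 : (0.45 : ℝ) * n ≤ (dg F x : ℝ) := by
    have : ((45 * n : ℕ) : ℝ) ≤ ((100 * dg F x : ℕ) : ℝ) := by exact_mod_cast hx
    push_cast at this
    linarith
  have h2' : ((NF F x \ NF F y).card : ℝ) + ((NF F x ∩ NF F y).card : ℝ) = (dg F x : ℝ) := by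
    exact_mod_cast h2
  have h3' : ((NF F x \ NF F y).card : ℝ) ≤ ((UU F x y).card : ℝ) + 1 := by
    exact_mod_cast h3
  nlinarith

/-- the final computation -/
lemma numeric {lam K c x N E O Fo H Q C : ℝ} (hK : 0 < K) (hc : 0 < c)
    (hlam : 10 ^ 6 ≤ lam) (hn0 : 0 < x) (hN : 2 * N ≤ x ^ 2) (hN0 : 0 < N)
    (hl1 : 1000 * (K + 1) ≤ lam) (hl2 : 400000 * K ≤ c * lam) (hE0 : 0 ≤ E)
    (hOe : O ≤ 8 * N / lam) (hNFo : Fo ≤ 10 * K * N / lam ^ 2) (hH : H ≤ 400 * x / lam)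
    (hcard : c * x ^ 2 / lam ^ 2 ≤ E) (hCand : E * (0.0361 * x ^ 2) ≤ C)
    (hsub : C ≤ Q + E * O + E * Fo + 2 * (H * x * Fo)) (hF0 : 0 ≤ Fo) (hH0 : 0 ≤ H) :
    c / 100 * x ^ 4 / lam ^ 2 ≤ Q := by
  have hlam0 : 0 < lam := by linarith
  have hx2 : 0 < x ^ 2 := by positivity
  have hOe' : O ≤ 0.008 * x ^ 2 := by
    refine hOe.trans ?_
    rw [div_le_iff₀ hlam0]
    have h1 : 8 * N ≤ 4 * x ^ 2 := by linarith
    have h2 : (10 : ℝ) ^ 6 * x ^ 2 ≤ lam * x ^ 2 := mul_le_mul_of_nonneg_right hlam hx2.le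
    linarith
  have hKN : 10 * K * N ≤ 5 * K * x ^ 2 := by
    have := mul_le_mul_of_nonneg_left hN (show (0 : ℝ) ≤ 5 * K by positivity)
    linarith
  have hNFo' : Fo ≤ 0.008 * x ^ 2 := by
    refine hNFo.trans ?_
    rw [div_le_iff₀ (by positivity)]
    have h2 : 5 * K ≤ 0.008 * lam := by linarith
    have h3 : 5 * K * x ^ 2 ≤ 0.008 * lam * x ^ 2 := mul_le_mul_of_nonneg_right h2 hx2.le
    have h4 : lam * x ^ 2 ≤ lam ^ 2 * x ^ 2 := by
      apply mul_le_mul_of_nonneg_right _ hx2.le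
      rw [sq]
      have : 1 * lam ≤ lam * lam := mul_le_mul_of_nonneg_right (by linarith) hlam0.le
      linarith
    linarith
  have hmain : E * (0.02 * x ^ 2) ≤ Q + 2 * (H * x * Fo) := by
    have e1 := mul_le_mul_of_nonneg_left hOe' hE0
    have e2 := mul_le_mul_of_nonneg_left hNFo' hE0
    have e3 : 0 ≤ E * x ^ 2 := by positivity
    linarith
  have hlast : 2 * (H * x * Fo) ≤ 4000 * K * x ^ 4 / lam ^ 3 := by
    have e1 : H * x ≤ 400 * x / lam * x := mul_le_mul_of_nonneg_right hH hn0.le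
    have e2 : Fo ≤ 5 * K * x ^ 2 / lam ^ 2 := by
      refine hNFo.trans ?_
      exact div_le_div_of_nonneg_right hKN (by positivity)
    have e3 : H * x * Fo ≤ (400 * x / lam * x) * (5 * K * x ^ 2 / lam ^ 2) :=
      mul_le_mul e1 e2 hF0 (by positivity)
    calc 2 * (H * x * Fo) ≤ 2 * ((400 * x / lam * x) * (5 * K * x ^ 2 / lam ^ 2)) := by linarith
      _ = 4000 * K * x ^ 4 / lam ^ 3 := by
          field_simp
          ring
  have hE1' : 0.02 * c * x ^ 4 / lam ^ 2 ≤ E * (0.02 * x ^ 2) := by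
    have := mul_le_mul_of_nonneg_right hcard (show (0 : ℝ) ≤ 0.02 * x ^ 2 by positivity)
    refine le_trans (le_of_eq ?_) this
    ring
  have hcmp : 4000 * K * x ^ 4 / lam ^ 3 ≤ c / 100 * x ^ 4 / lam ^ 2 := by
    rw [div_le_div_iff₀ (by positivity) (by positivity)]
    have : 4000 * K ≤ c / 100 * lam := by linarith
    have h2 : 4000 * K * (lam ^ 2 * x ^ 4) ≤ c / 100 * lam * (lam ^ 2 * x ^ 4) :=
      mul_le_mul_of_nonneg_right this (by positivity)
    refine le_trans (le_of_eq ?_) (h2.trans (le_of_eq ?_)) <;> ring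
  have hfin : 0.02 * c * x ^ 4 / lam ^ 2 = 2 * (c / 100 * x ^ 4 / lam ^ 2) := by
    ring
  linarith

/-- The counting of the quadruples, all inputs as hypotheses. -/
theorem core {δ lam K c : ℝ} {h : ℕ} (hK : 0 < K) (hc : 0 < c) (hG : GoodG δ h G)
    (hF : dirG P ≤ G) (hlam : 10 ^ 6 ≤ lam) (hδ : δ ≤ 1 / 1000) (hn : 4 * lam ≤ n)
    (hN : 2 * NN n ≤ (n : ℝ) ^ 2) (hN0 : 0 < NN n)
    (hE : (nE (dirG P) : ℝ) ≤ 4 * NN n / lam)
    (hNF : ((NonFree P).card : ℝ) ≤ 5 * K * NN n / lam ^ 2)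
    (hH : ((Hs (dirG P)).card : ℝ) ≤ 400 * n / lam)
    (hcard : c * (n : ℝ) ^ 2 / lam ^ 2 ≤ ((E1 (dirG P)).card : ℝ))
    (hl1 : 1000 * (K + 1) ≤ lam) (hl2 : 400000 * K ≤ c * lam) :
    c / 100 * (n : ℝ) ^ 4 / lam ^ 2 ≤ ((Quad P).card : ℝ) := by
  set F := dirG P with hFdef
  have hlam0 : 0 < lam := by linarith
  have hn0 : (0 : ℝ) < n := by linarith
  -- lower bound for the candidates
  have hU : ∀ e ∈ E1 F, (0.19 * (n : ℝ)) * (0.19 * n) ≤
      (((UU F e.1 e.2).card * (UU F e.2 e.1).card : ℕ) : ℝ) := by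
    intro e he
    rw [E1, mem_filter] at he
    obtain ⟨-, hadj, h1, h2⟩ := he
    have a1 := card_UU hG hF hadj.ne h1
    have a2 := card_UU hG hF hadj.ne.symm h2
    push_cast
    have b : 0.19 * (n : ℝ) ≤ (0.2 - δ) * n - 1 := by nlinarith
    apply mul_le_mul (by linarith) (by linarith) (by positivity) (by positivity)
  have hCand : ((E1 F).card : ℝ) * (0.0361 * (n : ℝ) ^ 2) ≤ ((Cand F).card : ℝ) := by
    have h1 : ((∑ e ∈ E1 F, (UU F e.1 e.2).card * (UU F e.2 e.1).card : ℕ) : ℝ) ≤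
        ((Cand F).card : ℝ) := by exact_mod_cast card_Cand F
    refine le_trans ?_ h1
    rw [Nat.cast_sum]
    have h2 := sum_le_sum hU
    rw [sum_const, nsmul_eq_mul] at h2
    refine le_trans (le_of_eq ?_) h2
    ring
  have hsub : ((Cand F).card : ℝ) ≤ ((Quad P).card : ℝ) +
      ((E1 F).card : ℝ) * ((Oe F).card : ℝ) + ((E1 F).card : ℝ) * ((NFo P).card : ℝ) +
      2 * (((Hs F).card : ℝ) * n * ((NFo P).card : ℝ)) := by
    exact_mod_cast Cand_sub P
  have hOe : ((Oe F).card : ℝ) ≤ 8 * NN n / lam := by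
    have h1 : ((Oe F).card : ℝ) ≤ 2 * (nE F : ℝ) := by exact_mod_cast card_Oe F
    calc ((Oe F).card : ℝ) ≤ 2 * (nE F : ℝ) := h1
      _ ≤ 2 * (4 * NN n / lam) := by linarith
      _ = _ := by ring
  have hNFo : ((NFo P).card : ℝ) ≤ 10 * K * NN n / lam ^ 2 := by
    have h1 : ((NFo P).card : ℝ) ≤ 2 * ((NonFree P).card : ℝ) := by exact_mod_cast card_NFo
    calc ((NFo P).card : ℝ) ≤ 2 * ((NonFree P).card : ℝ) := h1
      _ ≤ 2 * (5 * K * NN n / lam ^ 2) := by linarith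
      _ = _ := by ring
  exact numeric hK hc hlam hn0 hN hN0 hl1 hl2 (Nat.cast_nonneg _) hOe hNFo hH hcard hCand hsub
    (Nat.cast_nonneg _) (Nat.cast_nonneg _)

end QB

end

end PS
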